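import Pool.Agent.Lib.MP_1a1eb7_lc.Lv.CoverM
import Pool.Agent.Lib.MP_1a1eb7_lc.Lv.PartM
import Pool.Agent.Lib.MP_1a1eb7_lc.Lv.PLEq
import Pool.Agent.Shared.OMin.Bdry

namespace Pool.Agent.Results.MP_1a1eb7_lc.Level

open Pool.Agent.Lib.MP_1a1eb7_lc Pool.Agent.Shared.OMin

theorem result (s : Bool) (M : ℕ∞) (m : ℕ) (A : Set (Fin m → ℝ)) (f : (Fin m → ℝ) → ℝ)
    (h : IsPf (PfL s M) m A f) :
    ∃ 𝒞 : Set (Set (Fin m → ℝ)), 𝒞.Finite ∧ (∀ C ∈ 𝒞, IsCell (PfL s M) m C) ∧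
      𝒞.PairwiseDisjoint id ∧ ⋃₀ 𝒞 = {x ∈ A | f x = 0} := by
  rw [pfL_eq] at h ⊢
  obtain ⟨S, hS⟩ := exists_pfClosed
  have key : ∀ N : ℕ, IsPf (PfM s N) m A f → (N : ℕ∞) ≤ M →
      ∃ 𝒞 : Set (Set (Fin m → ℝ)), 𝒞.Finite ∧ (∀ C ∈ 𝒞, IsCell (PfM s M) m C) ∧
        𝒞.PairwiseDisjoint id ∧ ⋃₀ 𝒞 = {x ∈ A | f x = 0} := fun N hN hle => by
    obtain ⟨𝒞, h1, h2, h3, h4⟩ := zero_set_of_partitionM
      (exists_partitionM (fun m 𝒯 hT hp => exists_coverM hS hT hp) m) hN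
    exact ⟨𝒞, h1, fun C hC => (h2 C hC).toPfM s |>.monoM hle, h3, h4⟩
  induction M using ENat.recTopCoe with
  | top =>
    obtain ⟨N, hN⟩ := h.fin
    exact key N hN le_top
  | coe N => exact key N h le_rfl

end Pool.Agent.Results.MP_1a1eb7_lc.Level
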